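import Pool.Agent.H20.KF2

set_option autoImplicit false

namespace Pool.Agent.Results.MP_3edc48_gt.NonM

open Set Filter Topology Cardinal

/-- `Y` is kappa-Frechet: whenever `U` is open and `y` lies in the closure of `U` but not in `U`,
some countably infinite subset `B` of `U` converges to `y`, that is `y ∉ B` and `B \ V` is finite
for every neighbourhood `V` of `y`. -/
def KappaFrechet (Y : Type) [TopologicalSpace Y] : Prop :=
  ∀ (y : Y) (U : Set Y), IsOpen U → y ∈ closure U → y ∉ U →
    ∃ B : Set Y, B ⊆ U ∧ B.Countable ∧ B.Infinite ∧ y ∉ B ∧ ∀ V ∈ 𝓝 y, (B \ V).Finite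

theorem kf_iff (Y : Type) [TopologicalSpace Y] : KappaFrechet Y ↔ Pool.Agent.H20.KF.KFrechet Y := by
  constructor
  · intro h y U hU hy hn
    obtain ⟨B, h1, h2, h3, -, h4⟩ := h y U hU hy hn
    exact ⟨B, h1, h2, h3, h4⟩
  · intro h y U hU hy hn
    obtain ⟨B, h1, h2, h3, h4⟩ := h y U hU hy hn
    exact ⟨B, h1, h2, h3, fun hb => hn (h1 hb), h4⟩

/-- a countable set of reals is meagre -/
theorem countable_meagre (S : Set ℝ) (hS : S.Countable) : IsMeagre S := by
  have h1 : ∀ x : ℝ, IsMeagre ({x} : Set ℝ) := by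
    intro x
    rw [IsMeagre]
    exact residual_of_dense_open isOpen_compl_singleton (dense_compl_singleton x)
  have h2 : S = ⋃ x ∈ S, {x} := by simp
  rw [h2, IsMeagre, compl_iUnion₂]
  exact (countable_bInter_mem hS).2 (fun x _ => h1 x)

/-- The least cardinality of a set `X` of reals for which `C_p(X)` is not kappa-Frechet exists and
equals the least cardinality of a nonmeagre set of reals. -/
theorem result : ∃ c : Cardinal.{0},
    IsLeast {κ : Cardinal.{0} | ∃ S : Set ℝ, ¬ IsMeagre S ∧ #S = κ} c ∧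
    IsLeast {κ : Cardinal.{0} | ∃ X : Set ℝ,
      ¬ KappaFrechet {f : X → ℝ // Continuous f} ∧ #X = κ} c := by
  classical
  set M : Set Cardinal.{0} := {κ : Cardinal.{0} | ∃ S : Set ℝ, ¬ IsMeagre S ∧ #S = κ} with hM
  have hMne : M.Nonempty := by
    refine ⟨#(Set.univ : Set ℝ), Set.univ, ?_, rfl⟩
    exact not_isMeagre_of_isOpen isOpen_univ ⟨0, trivial⟩
  have hmin : sInf M ∈ M := csInf_mem hMne
  obtain ⟨S, hSm, hSc⟩ := hmin
  have hle : ∀ T : Set ℝ, #T < sInf M → IsMeagre T := by
    intro T hT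
    by_contra hcon
    exact absurd (csInf_le (OrderBot.bddBelow M) ⟨T, hcon, rfl⟩) (not_le.2 hT)
  have haleph : ℵ₀ ≤ sInf M := by
    rw [← hSc]
    by_contra hcon
    push Not at hcon
    apply hSm
    apply countable_meagre
    exact (Cardinal.le_aleph0_iff_set_countable).1 hcon.le
  refine ⟨sInf M, ⟨⟨S, hSm, hSc⟩, fun κ hκ => csInf_le (OrderBot.bddBelow M) hκ⟩, ?_, ?_⟩
  · -- attained
    refine ⟨S ∪ Set.range (fun q : ℚ => (q : ℝ)), ?_, ?_⟩
    · rw [kf_iff]
      apply Pool.Agent.H20.KF.not_kf_of_not_pk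
      apply Pool.Agent.H20.KF.not_pk_of_nonmeagre
      · intro h
        exact hSm (h.mono Set.subset_union_left)
      · intro n j
        right
        refine ⟨(2 * (j : ℚ) + 1) / 2 ^ (n + 1), ?_⟩
        unfold Pool.Agent.H20.KF.dd
        push_cast
        rfl
    · apply le_antisymm
      · refine (Cardinal.mk_union_le _ _).trans ?_
        rw [hSc]
        have h1 : #(Set.range (fun q : ℚ => (q : ℝ))) ≤ ℵ₀ :=
          (Cardinal.le_aleph0_iff_set_countable).2 (Set.countable_range _)
        calc sInf M + #(Set.range (fun q : ℚ => (q : ℝ))) ≤ sInf M + sInf M := by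
              gcongr; exact h1.trans haleph
          _ = sInf M := Cardinal.add_eq_self haleph
      · rw [← hSc]
        exact Cardinal.mk_le_mk_of_subset Set.subset_union_left
  · -- lower bound
    rintro κ ⟨X, hX, rfl⟩
    by_contra hcon
    push Not at hcon
    apply hX
    rw [kf_iff]
    apply Pool.Agent.H20.KF.kf_of_pk
    apply Pool.Agent.H20.KF.pk_of_meagre
    intro Ψ
    apply hle
    refine lt_of_le_of_lt Cardinal.mk_range_le ?_
    rw [Cardinal.mk_prod, Cardinal.mk_prod]
    simp only [Cardinal.lift_id]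
    have hb : #Bool < sInf M := lt_of_lt_of_le (Cardinal.lt_aleph0_of_finite Bool) haleph
    exact Cardinal.mul_lt_of_lt haleph hcon (Cardinal.mul_lt_of_lt haleph hcon hb)

end Pool.Agent.Results.MP_3edc48_gt.NonM
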